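import Pool.Agent.Y575.PN.Band
import Pool.Agent.Helper292.ForceCH

open MeasureTheory
open scoped ENNReal

namespace Pool.Agent.Results.MP_dd3545_lc.CanonicalBand

open Pool.Agent.Results.MP_dd3545_lc.ForcedSeparation
open Pool.Agent.Y575.PN

/-- No hypothesis is assumed. (1) There is a notion of forcing all of whose conditions force that
`ω₁` is preserved and that the continuum hypothesis holds. (2) Each of the following implies the
Sierpinski type hypothesis: the continuum hypothesis; `cov(N) = non(N) = 𝔠` (so Martin's axiom);
the existence of an uncountable Sierpinski set. (3) Under the Sierpinski type hypothesis, a finite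
Borel measure vanishes on all perfectly null sets if and only if it is absolutely continuous with
respect to a countable sum of canonical measures of perfect sets; some perfectly null set is not
universally null; and some homeomorphism of the Cantor space maps a perfectly null set to a set
that is not Lebesgue null. (4) In ZFC, no Bernoulli measure with `0 < p < 1` and `p ≠ 1/2` is
absolutely continuous with respect to a countable sum of canonical measures (so (3) yields a
perfectly null set that is not null for it). -/
theorem result :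
    (∃ (P : Type) (_ : Preorder P), Nonempty P ∧ ∀ p : P,
      p ∈ Pool.Agent.Helper292.ForceCH.OmegaOnePreserved P ∧
      p ∈ Pool.Agent.Helper292.ForceCH.CHHolds P) ∧
    (Cardinal.continuum.{0} = Cardinal.aleph 1 → SierpinskiType) ∧
    (CovContinuum → NonContinuum → SierpinskiType) ∧
    ((∃ X : Set (ℕ → Bool), ¬ X.Countable ∧ ∀ Y ⊆ X, lebesgue Y = 0 → Y.Countable) →
      SierpinskiType) ∧
    (SierpinskiType →
      (∀ ν : Measure (ℕ → Bool), IsFiniteMeasure ν →
        ((∀ A, PerfectlyNull A → ν A = 0) ↔ InBand ν)) ∧
      (∃ A, PerfectlyNull A ∧ ¬ UniversallyNull A) ∧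
      ∃ (φ : (ℕ → Bool) ≃ₜ (ℕ → Bool)) (A : Set (ℕ → Bool)),
        PerfectlyNull A ∧ lebesgue (φ '' A) ≠ 0 ∧ ¬ PerfectlyNull (φ '' A)) ∧
    (∀ p : ℝ≥0∞, 0 < p → p < 1 → p ≠ 1 / 2 → ¬ InBand (bern p)) := by
  refine ⟨?_, sierpinskiType_of_CH, sierpinskiType_of_cov_non, sierpinskiType_of_sierpinski,
    fun H => ⟨fun ν hν => vanish_iff H ν, pn_not_un H, not_homeo_invariant H⟩,
    fun p h0 h1 h2 => (bern_unfair h0 h1 h2).not_inBand⟩
  obtain ⟨P, hP, hne, h⟩ := Pool.Agent.Helper292.ForceCH.exists_forcing
  exact ⟨P, hP, hne, fun p => ⟨(h p).1, (h p).2.2⟩⟩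

end Pool.Agent.Results.MP_dd3545_lc.CanonicalBand
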