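import Pool.Agent.Y575.PN.Band
import Pool.Agent.Helper292.ForceCH

open MeasureTheory
open scoped ENNReal

namespace Pool.Agent.Results.MP_dd3545_lc.OneSetAllUnfair

open Pool.Agent.Results.MP_dd3545_lc.ForcedSeparation
open Pool.Agent.Y575.PN

/-- No hypothesis is assumed. (1) There is a notion of forcing all of whose conditions force that
`ω₁` is preserved and that the continuum hypothesis holds. (2) The continuum hypothesis implies
`cov(N) = non(N) = 𝔠`. (3) If `cov(N) = non(N) = 𝔠` (for example under Martin's axiom) then ONE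
perfectly null set is non-null for every unfair measure at the same time. (4) All Bernoulli
measures with `0 < p < 1` and `p ≠ 1/2` are unfair, and so is the image of the Lebesgue measure
under some homeomorphism of the Cantor space. -/
theorem result :
    (∃ (P : Type) (_ : Preorder P), Nonempty P ∧ ∀ p : P,
      p ∈ Pool.Agent.Helper292.ForceCH.OmegaOnePreserved P ∧
      p ∈ Pool.Agent.Helper292.ForceCH.CHHolds P) ∧
    (Cardinal.continuum.{0} = Cardinal.aleph 1 → CovContinuum ∧ NonContinuum) ∧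
    (CovContinuum → NonContinuum →
      ∃ A : Set (ℕ → Bool), PerfectlyNull A ∧ ∀ ν : Measure (ℕ → Bool), Unfair ν → ν A ≠ 0) ∧
    (∀ p : ℝ≥0∞, 0 < p → p < 1 → p ≠ 1 / 2 → Unfair (bern p)) ∧
    (∃ φ : (ℕ → Bool) ≃ₜ (ℕ → Bool), Unfair (lebesgue.map φ)) := by
  refine ⟨?_, fun CH => ⟨cov_of_CH CH, non_of_CH CH⟩, one_set,
    fun p h0 h1 h2 => bern_unfair h0 h1 h2, ⟨psiHomeo, nuPsi_unfair⟩⟩
  obtain ⟨P, hP, hne, h⟩ := Pool.Agent.Helper292.ForceCH.exists_forcing
  exact ⟨P, hP, hne, fun p => ⟨(h p).1, (h p).2.2⟩⟩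

end Pool.Agent.Results.MP_dd3545_lc.OneSetAllUnfair
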